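import Pool.Agent.H69.TRI.StmtsP

open MeasureTheory Set Filter Topology InnerProductSpace Metric
open scoped Real ComplexConjugate ContDiff Laplacian

namespace Pool.TRI.A

private noncomputable def chvL (a b : ℂ) : ℂ →L[ℝ] ℂ :=
  ((a.re • Complex.reCLM + a.im • Complex.imCLM).smulRight (1 : ℂ)) +
    ((b.re • Complex.reCLM + b.im • Complex.imCLM).smulRight Complex.I)

private theorem chvL_apply (a b z : ℂ) :
    chvL a b z = ⟨(z * conj a).re, (z * conj b).re⟩ := by
  apply Complex.ext <;> simp [chvL, Complex.mul_re] <;> ring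

private theorem chvL_det (a b : ℂ) : (chvL a b).det = a.re * b.im - a.im * b.re := by
  rw [ContinuousLinearMap.det, ← LinearMap.det_toMatrix Complex.basisOneI, Matrix.det_fin_two]
  simp only [LinearMap.toMatrix_apply, Complex.coe_basisOneI, Complex.coe_basisOneI_repr]
  simp [chvL]

private theorem chv_prod (G : ℝ × ℝ → ℝ) (hG : Continuous G) :
    ∫ p in {p : ℝ × ℝ | 0 < p.1 ∧ 0 < p.2 ∧ p.1 + p.2 < 1}, G p =
      ∫ s in (0 : ℝ)..1, ∫ t in (0 : ℝ)..(1 - s), G (s, t) := by
  set S : Set (ℝ × ℝ) := {p : ℝ × ℝ | 0 < p.1 ∧ 0 < p.2 ∧ p.1 + p.2 < 1} with hS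
  have hSo : IsOpen S := by
    have h1 : IsOpen {p : ℝ × ℝ | 0 < p.1} := isOpen_lt continuous_const continuous_fst
    have h2 : IsOpen {p : ℝ × ℝ | 0 < p.2} := isOpen_lt continuous_const continuous_snd
    have h3 : IsOpen {p : ℝ × ℝ | p.1 + p.2 < 1} :=
      isOpen_lt (continuous_fst.add continuous_snd) continuous_const
    exact h1.inter (h2.inter h3)
  have hSm : MeasurableSet S := hSo.measurableSet
  have hint : IntegrableOn G S := by
    have hK : IsCompact (Icc (0 : ℝ) 1 ×ˢ Icc (0 : ℝ) 1) := isCompact_Icc.prod isCompact_Icc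
    refine (hG.continuousOn.integrableOn_compact hK).mono_set ?_
    rintro ⟨s, t⟩ ⟨h1, h2, h3⟩
    simp only at h1 h2 h3
    exact ⟨⟨h1.le, by simp only; linarith⟩, ⟨h2.le, by simp only; linarith⟩⟩
  rw [← integral_indicator hSm]
  rw [show (volume : Measure (ℝ × ℝ)) = (volume : Measure ℝ).prod volume from rfl]
  rw [integral_prod]
  · have hin : ∀ s : ℝ, ∫ t, S.indicator G (s, t) =
        (Ioo (0 : ℝ) 1).indicator (fun s => ∫ t in (0 : ℝ)..(1 - s), G (s, t)) s := by
      intro s
      by_cases hs : s ∈ Ioo (0 : ℝ) 1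
      · rw [indicator_of_mem hs]
        have h01 : (0 : ℝ) ≤ 1 - s := by linarith [hs.2]
        rw [intervalIntegral.integral_of_le h01, integral_Ioc_eq_integral_Ioo,
          ← integral_indicator measurableSet_Ioo]
        congr 1
        ext t
        by_cases ht : t ∈ Ioo (0 : ℝ) (1 - s)
        · rw [indicator_of_mem ht, indicator_of_mem]
          exact ⟨hs.1, ht.1, by simp only; linarith [ht.2]⟩
        · rw [indicator_of_notMem ht, indicator_of_notMem]
          rintro ⟨_, h2, h3⟩
          simp only at h2 h3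
          exact ht ⟨h2, by linarith⟩
      · rw [indicator_of_notMem hs]
        have : ∀ t, S.indicator G (s, t) = 0 := by
          intro t
          apply indicator_of_notMem
          rintro ⟨h1, h2, h3⟩
          simp only at h1 h2 h3
          exact hs ⟨h1, by linarith⟩
        simp [this]
    simp only [hin]
    rw [integral_indicator measurableSet_Ioo, intervalIntegral.integral_of_le zero_le_one,
      integral_Ioc_eq_integral_Ioo]
  · rw [integrable_indicator_iff hSm]
    exact hint

theorem chv : ChvStmt := by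
  intro T B F hF
  set g0 := B.g 0 with hg0
  set g1 := B.g 1 with hg1
  have hdet : g0.re * g1.im - g0.im * g1.re = -(g0 * conj g1).im := by
    simp [Complex.mul_im]; ring
  have hdet0 : g0.re * g1.im - g0.im * g1.re ≠ 0 := by
    rw [hdet]; exact neg_ne_zero.2 B.indep
  have hx2 : ∀ z, B.x 2 z = 1 - B.x 0 z - B.x 1 z := by
    intro z
    have h2 : B.g 2 = -B.g 0 - B.g 1 := by linear_combination B.sum_g
    have hb : B.b 2 = 1 - B.b 0 - B.b 1 := by linarith [B.sum_b]
    simp only [Bary.x, h2, hb, map_sub, map_neg, mul_sub, mul_neg, Complex.sub_re, Complex.neg_re]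
    ring
  have hmem : ∀ z, z ∈ T ↔ 0 < B.x 0 z ∧ 0 < B.x 1 z ∧ B.x 0 z + B.x 1 z < 1 := by
    intro z
    rw [B.mem_iff]
    constructor
    · intro h
      have h0 := h 0
      have h1 := h 1
      have h2 := h 2
      have e2 : (z * conj (B.g 2)).re + B.b 2 = B.x 2 z := rfl
      rw [e2, hx2] at h2
      exact ⟨h0, h1, by linarith⟩
    · rintro ⟨h0, h1, h2⟩ k
      have key : ∀ k, 0 < B.x k z := by
        intro k
        fin_cases k
        · exact h0
        · exact h1
        · show 0 < B.x 2 z
          rw [hx2]; linarith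
      exact key k
  have hxc : ∀ k, Continuous (B.x k) := by
    intro k
    unfold Bary.x
    fun_prop
  have hTo : IsOpen T := by
    have : T = {z | 0 < B.x 0 z} ∩ ({z | 0 < B.x 1 z} ∩ {z | B.x 0 z + B.x 1 z < 1}) := by
      ext z
      rw [hmem]; rfl
    rw [this]
    exact (isOpen_lt continuous_const (hxc 0)).inter
      ((isOpen_lt continuous_const (hxc 1)).inter
        (isOpen_lt ((hxc 0).add (hxc 1)) continuous_const))
  set f : ℂ → ℂ := fun z => chvL g0 g1 z + ⟨B.b 0, B.b 1⟩ with hf
  have hfre : ∀ z, (f z).re = B.x 0 z := by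
    intro z; simp only [hf, chvL_apply]; rfl
  have hfim : ∀ z, (f z).im = B.x 1 z := by
    intro z; simp only [hf, chvL_apply]; rfl
  have hfd : ∀ z ∈ T, HasFDerivWithinAt f (chvL g0 g1) T z := by
    intro z _
    exact ((chvL g0 g1).hasFDerivAt.add_const _).hasFDerivWithinAt
  have hinj : InjOn f T := by
    intro z _ w _ h
    have e0 : B.x 0 z = B.x 0 w := by rw [← hfre, ← hfre, h]
    have e1 : B.x 1 z = B.x 1 w := by rw [← hfim, ← hfim, h]
    simp only [Bary.x, Complex.mul_re, Complex.conj_re, Complex.conj_im] at e0 e1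
    rw [← hg0] at e0
    rw [← hg1] at e1
    have h1 : (z.re - w.re) * (g0.re * g1.im - g0.im * g1.re) = 0 := by
      linear_combination g1.im * e0 - g0.im * e1
    have h2 : (z.im - w.im) * (g0.re * g1.im - g0.im * g1.re) = 0 := by
      linear_combination g0.re * e1 - g1.re * e0
    apply Complex.ext
    · have := (mul_eq_zero.1 h1).resolve_right hdet0
      linarith
    · have := (mul_eq_zero.1 h2).resolve_right hdet0
      linarith
  have himg : f '' T = {w : ℂ | 0 < w.re ∧ 0 < w.im ∧ w.re + w.im < 1} := by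
    ext w
    constructor
    · rintro ⟨z, hz, rfl⟩
      have := (hmem z).1 hz
      simpa [hfre, hfim] using this
    · intro hw
      set D := g0.re * g1.im - g0.im * g1.re with hD
      let z : ℂ := ⟨((w.re - B.b 0) * g1.im - (w.im - B.b 1) * g0.im) / D,
        ((w.im - B.b 1) * g0.re - (w.re - B.b 0) * g1.re) / D⟩
      have hz0 : B.x 0 z = w.re := by
        simp only [Bary.x, Complex.mul_re, Complex.conj_re, Complex.conj_im, z]
        rw [← hg0]
        field_simp
        rw [hD]; ring
      have hz1 : B.x 1 z = w.im := by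
        simp only [Bary.x, Complex.mul_re, Complex.conj_re, Complex.conj_im, z]
        rw [← hg1]
        field_simp
        rw [hD]; ring
      refine ⟨z, (hmem z).2 ?_, ?_⟩
      · rw [hz0, hz1]; exact hw
      · apply Complex.ext
        · rw [hfre, hz0]
        · rw [hfim, hz1]
  have hcv := integral_image_eq_integral_abs_det_fderiv_smul (volume : Measure ℂ) hTo.measurableSet
    hfd hinj (fun w => F ![w.re, w.im, 1 - w.re - w.im])
  rw [himg] at hcv
  have hleft : ∫ w in {w : ℂ | 0 < w.re ∧ 0 < w.im ∧ w.re + w.im < 1},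
      F ![w.re, w.im, 1 - w.re - w.im] = KI F := by
    have hc : Continuous fun p : ℝ × ℝ => F ![p.1, p.2, 1 - p.1 - p.2] := by
      apply hF.comp
      refine continuous_pi fun i => ?_
      fin_cases i
      · exact continuous_fst
      · exact continuous_snd
      · exact (continuous_const.sub continuous_fst).sub continuous_snd
    have h2 := Complex.volume_preserving_equiv_real_prod.setIntegral_preimage_emb
      Complex.measurableEquivRealProd.measurableEmbedding
      (fun p : ℝ × ℝ => F ![p.1, p.2, 1 - p.1 - p.2])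
      {p : ℝ × ℝ | 0 < p.1 ∧ 0 < p.2 ∧ p.1 + p.2 < 1}
    rw [chv_prod _ hc] at h2
    exact h2
  have hright : ∫ z in T, |(chvL g0 g1).det| • F ![(f z).re, (f z).im, 1 - (f z).re - (f z).im] =
      |(g0 * conj g1).im| * ∫ z in T, F (fun k => B.x k z) := by
    rw [chvL_det, hdet, abs_neg, ← integral_const_mul]
    congr 1
    ext z
    rw [smul_eq_mul, hfre, hfim]
    congr 2
    ext i
    fin_cases i
    · rfl
    · rfl
    · exact (hx2 z).symm
  rw [hleft, hright] at hcv
  have hpos : |(g0 * conj g1).im| ≠ 0 := abs_ne_zero.2 B.indep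
  rw [eq_div_iff hpos, hcv, mul_comm]

end Pool.TRI.A
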