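import Pool.Agent.H69.TRI.StmtsP

open MeasureTheory Set Filter Topology InnerProductSpace Metric
open scoped Real ComplexConjugate ContDiff Laplacian

namespace Pool.TRI.A

private theorem rayk_cont {T : Set ℂ} (B : Bary T) : Continuous fun z => (fun k => B.x k z) := by
  refine continuous_pi fun k => ?_
  unfold Bary.x
  fun_prop

private theorem rayk_smooth {T : Set ℂ} (B : Bary T) : ContDiff ℝ ∞ fun z => (fun k => B.x k z) := by
  refine contDiff_pi.2 fun k => ?_
  have : (fun z => B.x k z) = fun z : ℂ =>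
      (B.g k).re * z.re + (B.g k).im * z.im + B.b k := by
    ext z
    simp [Bary.x, Complex.mul_re]; ring
  rw [this]
  exact (((contDiff_const.mul Complex.reCLM.contDiff).add
    (contDiff_const.mul Complex.imCLM.contDiff)).add contDiff_const)

private theorem rayk_sum {T : Set ℂ} (B : Bary T) (z : ℂ) : B.x 0 z + B.x 1 z + B.x 2 z = 1 := by
  have h2 : B.g 2 = -B.g 0 - B.g 1 := by linear_combination B.sum_g
  have hb : B.b 2 = 1 - B.b 0 - B.b 1 := by linarith [B.sum_b]
  simp only [Bary.x, h2, hb, map_sub, map_neg, mul_sub, mul_neg, Complex.sub_re, Complex.neg_re]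
  ring

private theorem rayk_open {T : Set ℂ} (B : Bary T) : IsOpen T := by
  have : T = ⋂ k : Fin 3, {z | 0 < B.x k z} := by
    ext z
    rw [B.mem_iff, mem_iInter]; rfl
  rw [this]
  exact isOpen_iInter_of_finite fun k =>
    isOpen_lt continuous_const ((continuous_apply k).comp (rayk_cont B))

private theorem rayk_bdd {T : Set ℂ} (B : Bary T) : Bornology.IsBounded T := by
  set g0 := B.g 0 with hg0
  set g1 := B.g 1 with hg1
  have hdet0 : g0.re * g1.im - g0.im * g1.re ≠ 0 := by
    have h := B.indep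
    have e : g0.re * g1.im - g0.im * g1.re = -(g0 * conj g1).im := by
      simp [Complex.mul_im]; ring
    rw [e]; exact neg_ne_zero.2 h
  set D := g0.re * g1.im - g0.im * g1.re with hD
  let ψ : ℝ × ℝ → ℂ := fun p =>
    (((p.1 - B.b 0) * g1.im - (p.2 - B.b 1) * g0.im) / D : ℝ) +
      (((p.2 - B.b 1) * g0.re - (p.1 - B.b 0) * g1.re) / D : ℝ) * Complex.I
  have hψ : Continuous ψ := by
    simp only [ψ]
    fun_prop
  have hK : IsCompact (ψ '' (Icc (0 : ℝ) 1 ×ˢ Icc (0 : ℝ) 1)) :=
    (isCompact_Icc.prod isCompact_Icc).image hψ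
  refine hK.isBounded.subset ?_
  intro z hz
  have hpos : ∀ k, 0 < B.x k z := (B.mem_iff z).1 hz
  have hs := rayk_sum B z
  refine ⟨(B.x 0 z, B.x 1 z), ⟨⟨(hpos 0).le, ?_⟩, ⟨(hpos 1).le, ?_⟩⟩, ?_⟩
  · show B.x 0 z ≤ 1
    linarith [hpos 1, hpos 2]
  · show B.x 1 z ≤ 1
    linarith [hpos 0, hpos 2]
  · have e0 : B.x 0 z - B.b 0 = z.re * g0.re + z.im * g0.im := by
      simp [Bary.x, Complex.mul_re, hg0]
    have e1 : B.x 1 z - B.b 1 = z.re * g1.re + z.im * g1.im := by
      simp [Bary.x, Complex.mul_re, hg1]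
    apply Complex.ext
    · simp only [ψ, e0, e1, Complex.add_re, Complex.ofReal_re, Complex.mul_re, Complex.I_re,
        Complex.ofReal_im, Complex.I_im]
      field_simp
      rw [hD]; ring
    · simp only [ψ, e0, e1, Complex.add_im, Complex.ofReal_re, Complex.mul_im, Complex.I_re,
        Complex.ofReal_im, Complex.I_im]
      field_simp
      rw [hD]; ring

private theorem rayk_DDcont (F : (Fin 3 → ℝ) → ℝ) (hF : ContDiff ℝ ∞ F) (k : Fin 3) :
    Continuous (DD k F) := by
  unfold DD
  exact (hF.continuous_fderiv (by simp)).clm_apply continuous_const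

theorem rayk (hRay : RayStmt) (hChv : ChvStmt) (hGrad : GradStmt) : RayKStmt := by
  intro T B F hF hVB hpos
  set Φ : ℂ → ℝ := fun z => F (fun k => B.x k z) with hΦ
  have hΦs : ContDiff ℝ ∞ Φ := hF.comp (rayk_smooth B)
  have hTo := rayk_open B
  have hTb := rayk_bdd B
  set φ : ℂ → ℝ := T.indicator Φ with hφ
  have hφc : Continuous φ := by
    apply continuous_indicator
    · intro a ha
      have hcl : ∀ k, 0 ≤ B.x k a := by
        intro k
        have h1 : closure T ⊆ {z | 0 ≤ B.x k z} := by
          apply closure_minimal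
          · intro z hz
            exact ((B.mem_iff z).1 hz k).le
          · exact isClosed_le continuous_const ((continuous_apply k).comp (rayk_cont B))
        exact h1 (frontier_subset_closure ha)
      have hn : a ∉ T := by
        have : a ∈ closure T \ interior T := ha
        rw [hTo.interior_eq] at this
        exact this.2
      have : ∃ k, B.x k a = 0 := by
        by_contra hcon
        push Not at hcon
        apply hn
        rw [B.mem_iff]
        intro k
        exact lt_of_le_of_ne (hcl k) (Ne.symm (hcon k))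
      exact hVB (fun k => B.x k a) (rayk_sum B a) this
    · exact hΦs.continuous.continuousOn
  have hφT : ∀ z ∈ T, φ z = Φ z := fun z hz => indicator_of_mem hz _
  have hφs : ContDiffOn ℝ ∞ φ T := hΦs.contDiffOn.congr hφT
  have hφd : ∀ z ∈ T, fderiv ℝ φ z = fderiv ℝ Φ z := by
    intro z hz
    apply Filter.EventuallyEq.fderiv_eq
    filter_upwards [hTo.mem_nhds hz] with w hw
    exact hφT w hw
  have hcomp : IsCompact (closure T) := hTb.isCompact_closure
  have hK : ∃ K, ∀ z ∈ T, ‖fderiv ℝ φ z‖ ≤ K := by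
    have hc : Continuous fun z => ‖fderiv ℝ Φ z‖ := (hΦs.continuous_fderiv (by simp)).norm
    obtain ⟨K, hK⟩ := hcomp.bddAbove_image hc.continuousOn
    refine ⟨K, fun z hz => ?_⟩
    rw [hφd z hz]
    exact hK ⟨z, subset_closure hz, rfl⟩
  have hmain := hRay T φ hTo hTb hφc hφs (fun z hz => indicator_of_notMem hz _) hK
  have hm := hTo.measurableSet
  have hdet : 0 < |(B.g 0 * conj (B.g 1)).im| := abs_pos.2 B.indep
  have hL : ∫ z in T, φ z ^ 2 = KI (fun x => F x ^ 2) / |(B.g 0 * conj (B.g 1)).im| := by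
    rw [← hChv T B (fun x => F x ^ 2) (hF.continuous.pow 2)]
    apply setIntegral_congr_fun hm
    intro z hz
    show φ z ^ 2 = _
    rw [hφT z hz]
  have hint : ∀ k : Fin 3, IntegrableOn (fun z => B.c k * DD k F (fun i => B.x i z) ^ 2) T := by
    intro k
    have hc : Continuous fun z => B.c k * DD k F (fun i => B.x i z) ^ 2 :=
      continuous_const.mul (((rayk_DDcont F hF k).comp (rayk_cont B)).pow 2)
    exact (hc.continuousOn.integrableOn_compact hcomp).mono_set subset_closure
  have hR : ∫ z in T, ‖fderiv ℝ φ z‖ ^ 2 =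
      (∑ k, B.c k * KI (fun x => DD k F x ^ 2)) / |(B.g 0 * conj (B.g 1)).im| := by
    have h1 : ∫ z in T, ‖fderiv ℝ φ z‖ ^ 2 = ∫ z in T, ∑ k, B.c k * DD k F (fun i => B.x i z) ^ 2 := by
      apply setIntegral_congr_fun hm
      intro z hz
      show ‖fderiv ℝ φ z‖ ^ 2 = _
      rw [hφd z hz]
      exact hGrad T B F z (hF.differentiable (by simp)).differentiableAt
    rw [h1, integral_finset_sum _ (fun k _ => hint k), Finset.sum_div]
    refine Finset.sum_congr rfl fun k _ => ?_
    rw [integral_const_mul, hChv T B (fun x => DD k F x ^ 2) ((rayk_DDcont F hF k).pow 2)]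
    ring
  rw [hL, hR, mul_div_assoc', div_le_div_iff_of_pos_right hdet] at hmain
  exact hmain

end Pool.TRI.A
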